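import Pool.Agent.helper24.TG.S1

set_option linter.all false
set_option autoImplicit false

/-!
# Containers (modules CT1, CT3, CT4 of MP_ce98d8_co)
-/

namespace Pool.Agent.helper62.TG

open Finset Classical
open Pool.Agent.helper11.Tight (nb eo mem_nb)
open Pool.Agent.helper24.TG

/-- the arithmetic of one step -/
theorem cont_arith (z k : ℕ) : z ^ (k + 1) + z ^ k ≤ (z + 1) ^ (k + 1) := by
  calc z ^ (k + 1) + z ^ k = z ^ k * (z + 1) := by rw [pow_succ]; ring
    _ ≤ (z + 1) ^ k * (z + 1) := Nat.mul_le_mul_right _ (Nat.pow_le_pow_left (by omega) k)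
    _ = (z + 1) ^ (k + 1) := by rw [pow_succ]

/-- shrinking step: numbers -/
theorem shrink_arith {z z' w t D k : ℕ} (hD : 1 ≤ D) (h1 : z ≤ D * w) (h2 : z' + w ≤ z)
    (h : z * (D - 1) ^ (k + 1) < t * D ^ (k + 1)) : z' * (D - 1) ^ k < t * D ^ k := by
  have h3 : D * z' ≤ (D - 1) * z := by
    obtain ⟨e, rfl⟩ : ∃ e, D = e + 1 := ⟨D - 1, by omega⟩
    simp only [Nat.add_sub_cancel]
    nlinarith
  have h4 : D * (z' * (D - 1) ^ k) < D * (t * D ^ k) := by
    calc D * (z' * (D - 1) ^ k) = (D * z') * (D - 1) ^ k := by ring
      _ ≤ ((D - 1) * z) * (D - 1) ^ k := Nat.mul_le_mul_right _ h3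
      _ = z * (D - 1) ^ (k + 1) := by rw [pow_succ]; ring
      _ < t * D ^ (k + 1) := h
      _ = D * (t * D ^ k) := by rw [pow_succ]; ring
  exact Nat.lt_of_mul_lt_mul_left h4

theorem CT3_aux {V : Type} [Fintype V] [DecidableEq V] (T : SimpleGraph V) (t La : ℕ)
    (hLa : 1 ≤ La)
    (hs : ∀ Y : Finset V, t ≤ Y.card → ∃ y ∈ Y, Y.card ≤ La * (nb T y ∩ Y).card) (n : ℕ) :
    ∀ (Z : Finset V) (k : ℕ), Z.card = n → Z.card * (La - 1) ^ k < t * La ^ k →
      ∃ F : Finset (Finset V), F.card ≤ (Z.card + 1) ^ k ∧
        ∀ U : Finset V, U ⊆ Z → IndT T U → ∃ W ∈ F, U ⊆ W ∧ (W \ U).card ≤ t := by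
  induction n using Nat.strong_induction_on with
  | _ n ih =>
    intro Z k hZn hk
    by_cases hZ : Z.card < t
    · refine ⟨{Z}, ?_, ?_⟩
      · simpa using Nat.one_le_pow k (Z.card + 1) (by omega)
      · intro U hU _
        refine ⟨Z, by simp, hU, ?_⟩
        exact le_trans (Finset.card_le_card Finset.sdiff_subset) hZ.le
    · push Not at hZ
      obtain ⟨u, huZ, hu⟩ := hs Z hZ
      obtain ⟨k', rfl⟩ : ∃ k', k = k' + 1 := by
        cases k with
        | zero => simp at hk; omega
        | succ k' => exact ⟨k', rfl⟩
      have hc1 : (Z.erase u).card = Z.card - 1 := Finset.card_erase_of_mem huZ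
      have hpos : 1 ≤ Z.card := Finset.card_pos.mpr ⟨u, huZ⟩
      obtain ⟨F1, hF1, hU1⟩ := ih (Z.erase u).card (by omega) (Z.erase u) (k' + 1) rfl (by
        refine lt_of_le_of_lt (Nat.mul_le_mul_right _ ?_) hk
        omega)
      set Z2 := (Z.erase u).filter (fun v => ¬ T.Adj u v) with hZ2
      have hsub : Z2 ⊆ Z.erase u := Finset.filter_subset _ _
      have hc2 : Z2.card ≤ Z.card - 1 := by
        rw [← hc1]; exact Finset.card_le_card hsub
      have hc3 : Z2.card + (nb T u ∩ Z).card ≤ Z.card := by
        rw [← Finset.card_union_of_disjoint]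
        · apply Finset.card_le_card
          intro x hx
          rcases Finset.mem_union.mp hx with hx | hx
          · exact Finset.mem_of_mem_erase (hsub hx)
          · exact (Finset.mem_inter.mp hx).2
        · rw [Finset.disjoint_left]
          intro x hx hx'
          have h1 := (Finset.mem_filter.mp hx).2
          have h2 := mem_nb.mp (Finset.mem_inter.mp hx').1
          exact h1 h2
      obtain ⟨F2, hF2, hU2⟩ := ih Z2.card (by omega) Z2 k' rfl
        (shrink_arith hLa hu hc3 hk)
      refine ⟨F1 ∪ F2.image (insert u), ?_, ?_⟩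
      · calc (F1 ∪ F2.image (insert u)).card ≤ F1.card + F2.card :=
              le_trans (Finset.card_union_le _ _) (Nat.add_le_add_left Finset.card_image_le _)
          _ ≤ Z.card ^ (k' + 1) + Z.card ^ k' := by
              apply Nat.add_le_add
              · refine le_trans hF1 (Nat.pow_le_pow_left (by omega) _)
              · refine le_trans hF2 (Nat.pow_le_pow_left (by omega) _)
          _ ≤ (Z.card + 1) ^ (k' + 1) := cont_arith _ _
      · intro U hU hind
        by_cases huU : u ∈ U
        · obtain ⟨W, hW, hUW, hc⟩ := hU2 (U.erase u) (by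
            intro x hx
            have hxU := Finset.mem_of_mem_erase hx
            refine Finset.mem_filter.mpr ⟨Finset.mem_erase.mpr
              ⟨Finset.ne_of_mem_erase hx, hU hxU⟩, hind u huU x hxU⟩)
            (fun a ha b hb => hind a (Finset.mem_of_mem_erase ha) b (Finset.mem_of_mem_erase hb))
          refine ⟨insert u W, Finset.mem_union_right _ (Finset.mem_image_of_mem _ hW), ?_, ?_⟩
          · intro x hx
            by_cases hxu : x = u
            · rw [hxu]; exact Finset.mem_insert_self _ _
            · exact Finset.mem_insert_of_mem (hUW (Finset.mem_erase.mpr ⟨hxu, hx⟩))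
          · refine le_trans (Finset.card_le_card ?_) hc
            intro x hx
            simp only [Finset.mem_sdiff, Finset.mem_insert, Finset.mem_erase] at hx ⊢
            rcases hx with ⟨hx1 | hx1, hx2⟩
            · exact absurd (hx1 ▸ huU) hx2
            · exact ⟨hx1, fun h => hx2 h.2⟩
        · obtain ⟨W, hW, hUW, hc⟩ := hU1 U (fun x hx => Finset.mem_erase.mpr
            ⟨fun h => huU (h ▸ hx), hU hx⟩) hind
          exact ⟨W, Finset.mem_union_left _ hW, hUW, hc⟩

theorem CT3 : CT3_stmt := by
  intro V _ _ T t La k al ht hLa hs hal hk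
  obtain ⟨F, hF, hU⟩ := CT3_aux T t La hLa hs _ Finset.univ k rfl (by
    rw [Finset.card_univ]; exact hk)
  refine ⟨F.filter (fun W => W.card ≤ t + al), ?_, ?_, ?_⟩
  · refine le_trans (Finset.card_filter_le _ _) ?_
    rw [Finset.card_univ] at hF
    exact hF
  · intro W hW
    exact (Finset.mem_filter.mp hW).2
  · intro U hind
    obtain ⟨W, hW, hUW, hc⟩ := hU U (Finset.subset_univ _) hind
    refine ⟨W, Finset.mem_filter.mpr ⟨hW, ?_⟩, hUW⟩
    have h1 := Finset.card_sdiff_add_card_eq_card hUW
    have h2 := hal U hind
    omega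

theorem CT1_aux {X : Type} [Fintype X] [DecidableEq X] (rel : X → X → Prop)
    (W0 D : ℕ) (hW0 : 1 ≤ W0) (hD : 1 ≤ D)
    (hm : ∀ S W : Finset X, W0 ≤ S.card → W0 ≤ W.card →
      S.card * W.card ≤ D * ((S ×ˢ W).filter (fun e => rel e.1 e.2)).card) (n : ℕ) :
    ∀ (W1 W2 : Finset X) (k : ℕ), W1.card = n → W2.card * (D - 1) ^ k < W0 * D ^ k →
      ∃ F : Finset (Finset X), F.card ≤ (W1.card + 1) ^ k ∧ (∀ W ∈ F, W.card ≤ W0 + k) ∧
        ∀ S R : Finset X, S ⊆ W1 → R ⊆ W2 → (∀ x ∈ S, ∀ y ∈ R, ¬ rel x y) →
          ∃ W ∈ F, S ⊆ W ∨ R ⊆ W := by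
  induction n using Nat.strong_induction_on with
  | _ n ih =>
    intro W1 W2 k hn hk
    have hone : 1 ≤ (W1.card + 1) ^ k := Nat.one_le_pow k (W1.card + 1) (by omega)
    by_cases h1 : W1.card < W0
    · refine ⟨{W1}, by simpa using hone, ?_, ?_⟩
      · intro W hW
        rw [Finset.mem_singleton] at hW
        rw [hW]; omega
      · intro S R hS _ _
        exact ⟨W1, by simp, Or.inl hS⟩
    by_cases h2 : W2.card < W0
    · refine ⟨{W2}, by simpa using hone, ?_, ?_⟩
      · intro W hW
        rw [Finset.mem_singleton] at hW
        rw [hW]; omega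
      · intro S R _ hR _
        exact ⟨W2, by simp, Or.inr hR⟩
    push Not at h1 h2
    obtain ⟨k', rfl⟩ : ∃ k', k = k' + 1 := by
      cases k with
      | zero => simp at hk; omega
      | succ k' => exact ⟨k', rfl⟩
    obtain ⟨x, hx1, hx⟩ : ∃ x ∈ W1, W2.card ≤ D * (W2.filter (fun y => rel x y)).card := by
      by_contra hcon
      push Not at hcon
      have h3 := hm W1 W2 h1 h2
      have h4 : ((W1 ×ˢ W2).filter (fun e => rel e.1 e.2)).card =
          ∑ x ∈ W1, (W2.filter (fun y => rel x y)).card := by
        rw [Finset.card_filter, Finset.sum_product]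
        apply Finset.sum_congr rfl
        intro a _
        rw [← Finset.card_filter]
      rw [h4, Finset.mul_sum] at h3
      have hne : W1.Nonempty := Finset.card_pos.mp (by omega)
      have h5 : ∑ x ∈ W1, D * (W2.filter (fun y => rel x y)).card < ∑ x ∈ W1, W2.card :=
        Finset.sum_lt_sum_of_nonempty hne hcon
      rw [Finset.sum_const, smul_eq_mul] at h5
      omega
    have hc1 : (W1.erase x).card = W1.card - 1 := Finset.card_erase_of_mem hx1
    have hpos : 1 ≤ W1.card := Finset.card_pos.mpr ⟨x, hx1⟩
    obtain ⟨F1, hF1, hs1, hU1⟩ := ih (W1.erase x).card (by omega) (W1.erase x) W2 (k' + 1) rfl hk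
    set W2' := W2.filter (fun y => ¬ rel x y) with hW2'
    have hc3 : W2'.card + (W2.filter (fun y => rel x y)).card ≤ W2.card := by
      rw [← Finset.card_union_of_disjoint]
      · apply Finset.card_le_card
        intro y hy
        rcases Finset.mem_union.mp hy with hy | hy
        · exact (Finset.mem_filter.mp hy).1
        · exact (Finset.mem_filter.mp hy).1
      · rw [Finset.disjoint_left]
        intro y hy hy'
        exact (Finset.mem_filter.mp hy).2 (Finset.mem_filter.mp hy').2
    obtain ⟨F2, hF2, hs2, hU2⟩ := ih (W1.erase x).card (by omega) (W1.erase x) W2' k' rfl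
      (shrink_arith hD hx hc3 hk)
    refine ⟨F1 ∪ F2.image (insert x), ?_, ?_, ?_⟩
    · calc (F1 ∪ F2.image (insert x)).card ≤ F1.card + F2.card :=
            le_trans (Finset.card_union_le _ _) (Nat.add_le_add_left Finset.card_image_le _)
        _ ≤ W1.card ^ (k' + 1) + W1.card ^ k' := by
            apply Nat.add_le_add
            · refine le_trans hF1 (Nat.pow_le_pow_left (by omega) _)
            · refine le_trans hF2 (Nat.pow_le_pow_left (by omega) _)
        _ ≤ (W1.card + 1) ^ (k' + 1) := cont_arith _ _
    · intro W hW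
      rcases Finset.mem_union.mp hW with hW | hW
      · exact hs1 W hW
      · obtain ⟨W', hW', rfl⟩ := Finset.mem_image.mp hW
        have := hs2 W' hW'
        have := Finset.card_insert_le x W'
        omega
    · intro S R hS hR hSR
      by_cases hxS : x ∈ S
      · obtain ⟨W, hW, hor⟩ := hU2 (S.erase x) R (Finset.erase_subset_erase x hS) (by
          intro y hy
          exact Finset.mem_filter.mpr ⟨hR hy, hSR x hxS y hy⟩)
          (fun a ha b hb => hSR a (Finset.mem_of_mem_erase ha) b hb)
        refine ⟨insert x W, Finset.mem_union_right _ (Finset.mem_image_of_mem _ hW), ?_⟩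
        rcases hor with h | h
        · left
          intro y hy
          by_cases hyx : y = x
          · rw [hyx]; exact Finset.mem_insert_self _ _
          · exact Finset.mem_insert_of_mem (h (Finset.mem_erase.mpr ⟨hyx, hy⟩))
        · right
          exact h.trans (Finset.subset_insert _ _)
      · obtain ⟨W, hW, hor⟩ := hU1 S R (fun y hy => Finset.mem_erase.mpr
          ⟨fun h => hxS (h ▸ hy), hS hy⟩) hR hSR
        exact ⟨W, Finset.mem_union_left _ hW, hor⟩

theorem CT1 : CT1_stmt := by
  intro X _ _ rel W0 D k hW0 hD hm hk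
  obtain ⟨F, hF, hs, hU⟩ := CT1_aux rel W0 D hW0 hD hm _ Finset.univ Finset.univ k rfl (by
    rw [Finset.card_univ]; exact hk)
  rw [Finset.card_univ] at hF
  refine ⟨F, by omega, hs, ?_⟩
  intro S R hSR
  exact hU S R (Finset.subset_univ _) (Finset.subset_univ _) hSR

/-- the arithmetic of one step of CT4 -/
theorem cont_arith4 (x z k : ℕ) :
    (1 + x * z) ^ (k + 1) + x * (1 + x * (z + 1)) ^ k ≤ (1 + x * (z + 1)) ^ (k + 1) := by
  have h1 : (1 + x * z) ^ k ≤ (1 + x * (z + 1)) ^ k :=
    Nat.pow_le_pow_left (by nlinarith) k
  calc (1 + x * z) ^ (k + 1) + x * (1 + x * (z + 1)) ^ k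
      = (1 + x * z) ^ k * (1 + x * z) + x * (1 + x * (z + 1)) ^ k := by rw [pow_succ]
    _ ≤ (1 + x * (z + 1)) ^ k * (1 + x * z) + x * (1 + x * (z + 1)) ^ k :=
        Nat.add_le_add_right (Nat.mul_le_mul_right _ h1) _
    _ = (1 + x * (z + 1)) ^ (k + 1) := by rw [pow_succ]; ring

theorem CT4_aux {X V : Type} [Fintype X] [DecidableEq X] [Fintype V] [DecidableEq V]
    (T : SimpleGraph V) (t La c : ℕ) (ht : 1 ≤ t) (hLa : 1 ≤ La) (hc : 1 ≤ c)
    (hs : ∀ Y : Finset V, t ≤ Y.card → ∃ y ∈ Y, Y.card ≤ La * (nb T y ∩ Y).card) (k : ℕ) :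
    ∀ (n : ℕ) (Z : Finset V) (cov : V → ℕ), Z.card = n → (∀ u ∈ Z, cov u < c) →
      (∑ u ∈ Z, (c - cov u)) * (c * La - 1) ^ k < (c * La) ^ k →
      ∃ F : Finset (Finset (X × V) × Finset V),
        F.card ≤ (1 + Fintype.card X * (Z.card + 1)) ^ k ∧
        (∀ f ∈ F, f.1.card ≤ k ∧ f.2.card ≤ t) ∧
        ∀ Sg : Finset (X × V), (∀ e ∈ Sg, e.2 ∈ Z ∨ c ≤ cov e.2) →
          ∃ f ∈ F, f.1 ⊆ Sg ∧ ∀ e ∈ Sg \ f.1, e.2 ∈ f.2 ∨
            c ≤ cov e.2 + (f.1.filter (fun e' => T.Adj e'.2 e.2)).card := by
  induction k with
  | zero =>
    intro n Z cov _ hcov hphi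
    have hZ : Z = ∅ := by
      rw [Finset.eq_empty_iff_forall_notMem]
      intro u hu
      have h1 : c - cov u ≤ ∑ u ∈ Z, (c - cov u) :=
        Finset.single_le_sum (f := fun u => c - cov u) (fun _ _ => Nat.zero_le _) hu
      have h2 := hcov u hu
      simp only [pow_zero, mul_one] at hphi
      omega
    refine ⟨{(∅, ∅)}, by simp, ?_, ?_⟩
    · intro f hf
      rw [Finset.mem_singleton] at hf
      rw [hf]; simp
    · intro Sg hSg
      refine ⟨(∅, ∅), by simp, by simp, ?_⟩
      intro e he
      right
      have he' := (Finset.mem_sdiff.mp he).1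
      rcases hSg e he' with h | h
      · rw [hZ] at h; simp at h
      · simpa using h
  | succ k ihk =>
    intro n
    induction n using Nat.strong_induction_on with
    | _ n ih =>
      intro Z cov hn hcov hphi
      have hone : 1 ≤ (1 + Fintype.card X * (Z.card + 1)) ^ (k + 1) :=
        Nat.one_le_pow _ _ (by omega)
      by_cases hZ : Z.card < t
      · refine ⟨{(∅, Z)}, by simpa using hone, ?_, ?_⟩
        · intro f hf
          rw [Finset.mem_singleton] at hf
          rw [hf]
          simpa using hZ.le
        · intro Sg hSg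
          refine ⟨(∅, Z), by simp, by simp, ?_⟩
          intro e he
          rcases hSg e (Finset.mem_sdiff.mp he).1 with h | h
          · left; exact h
          · right; simpa using h
      · push Not at hZ
        obtain ⟨u, huZ, hu⟩ := hs Z hZ
        have hc1 : (Z.erase u).card = Z.card - 1 := Finset.card_erase_of_mem huZ
        have hpos : 1 ≤ Z.card := Finset.card_pos.mpr ⟨u, huZ⟩
        obtain ⟨F1, hF1, hs1, hU1⟩ := ih (Z.erase u).card (by omega) (Z.erase u) cov rfl
          (fun v hv => hcov v (Finset.mem_of_mem_erase hv)) (by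
            refine lt_of_le_of_lt (Nat.mul_le_mul_right _ ?_) hphi
            exact Finset.sum_le_sum_of_subset (Finset.erase_subset _ _))
        set cov' : V → ℕ := fun v => cov v + if T.Adj u v then 1 else 0 with hcov'
        set Z' := Z.filter (fun v => cov' v < c) with hZ'
        have hZ'sub : Z' ⊆ Z := Finset.filter_subset _ _
        have hphi' : ∑ v ∈ Z', (c - cov' v) + (nb T u ∩ Z).card ≤ ∑ v ∈ Z, (c - cov v) := by
          have h1 : ∑ v ∈ Z', (c - cov' v) = ∑ v ∈ Z, (c - cov' v) := by
            rw [hZ', Finset.sum_filter]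
            apply Finset.sum_congr rfl
            intro v _
            split_ifs with h
            · rfl
            · omega
          have h2 : (nb T u ∩ Z).card = ∑ v ∈ Z, if T.Adj u v then 1 else 0 := by
            rw [← Finset.card_filter]
            congr 1
            ext v
            simp [and_comm]
          rw [h1, h2, ← Finset.sum_add_distrib]
          apply Finset.sum_le_sum
          intro v hv
          have h3 := hcov v hv
          simp only [hcov']
          split_ifs <;> omega
        have hphiZ : ∑ v ∈ Z, (c - cov v) ≤ c * La * (nb T u ∩ Z).card := by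
          calc ∑ v ∈ Z, (c - cov v) ≤ ∑ v ∈ Z, c := Finset.sum_le_sum (fun v _ => by omega)
            _ = c * Z.card := by rw [Finset.sum_const, smul_eq_mul, mul_comm]
            _ ≤ c * (La * (nb T u ∩ Z).card) := Nat.mul_le_mul_left _ hu
            _ = c * La * (nb T u ∩ Z).card := by ring
        have hD : 1 ≤ c * La := Nat.mul_pos hc hLa
        obtain ⟨F2, hF2, hs2, hU2⟩ := ihk Z'.card Z' cov' rfl
          (fun v hv => (Finset.mem_filter.mp hv).2) (by
            have := shrink_arith (t := 1) hD hphiZ hphi' (by simpa using hphi)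
            simpa using this)
        refine ⟨F1 ∪ (Finset.univ : Finset X).biUnion
          (fun x => F2.image (fun f => (insert (x, u) f.1, f.2))), ?_, ?_, ?_⟩
        · have h1 : ((Finset.univ : Finset X).biUnion
              (fun x => F2.image (fun f => (insert (x, u) f.1, f.2)))).card ≤
              Fintype.card X * (1 + Fintype.card X * (Z.card + 1)) ^ k := by
            calc _ ≤ ∑ x : X, (F2.image (fun f => (insert (x, u) f.1, f.2))).card :=
                  Finset.card_biUnion_le
              _ ≤ ∑ x : X, (1 + Fintype.card X * (Z.card + 1)) ^ k := by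
                  apply Finset.sum_le_sum
                  intro x _
                  refine le_trans Finset.card_image_le (le_trans hF2 ?_)
                  apply Nat.pow_le_pow_left
                  have h2 : Z'.card ≤ Z.card := Finset.card_le_card hZ'sub
                  have h3 : Fintype.card X * (Z'.card + 1) ≤ Fintype.card X * (Z.card + 1) :=
                    Nat.mul_le_mul_left _ (by omega)
                  omega
              _ = _ := by rw [Finset.sum_const, smul_eq_mul, Finset.card_univ]
          have h2 : F1.card ≤ (1 + Fintype.card X * Z.card) ^ (k + 1) := by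
            refine le_trans hF1 (le_of_eq ?_)
            congr 2
            congr 1
            omega
          exact le_trans (Finset.card_union_le _ _)
            (le_trans (Nat.add_le_add h2 h1) (cont_arith4 _ _ _))
        · intro f hf
          rcases Finset.mem_union.mp hf with hf | hf
          · exact hs1 f hf
          · obtain ⟨x, _, hf⟩ := Finset.mem_biUnion.mp hf
            obtain ⟨g, hg, rfl⟩ := Finset.mem_image.mp hf
            have h1 := hs2 g hg
            have h2 := Finset.card_insert_le (x, u) g.1
            exact ⟨by simp only; omega, h1.2⟩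
        · intro Sg hSg
          by_cases hex : ∃ x, (x, u) ∈ Sg
          · obtain ⟨x, hx⟩ := hex
            obtain ⟨f, hf, hsub, hprop⟩ := hU2 (Sg.erase (x, u)) (by
              intro e he
              rcases hSg e (Finset.mem_of_mem_erase he) with h | h
              · by_cases h2 : cov' e.2 < c
                · left; exact Finset.mem_filter.mpr ⟨h, h2⟩
                · right; omega
              · right
                simp only [hcov']
                omega)
            have hnot : (x, u) ∉ f.1 := fun h => (Finset.mem_erase.mp (hsub h)).1 rfl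
            refine ⟨(insert (x, u) f.1, f.2), ?_, ?_, ?_⟩
            · apply Finset.mem_union_right
              exact Finset.mem_biUnion.mpr ⟨x, Finset.mem_univ _,
                Finset.mem_image.mpr ⟨f, hf, rfl⟩⟩
            · intro e he
              rcases Finset.mem_insert.mp he with h | h
              · rw [h]; exact hx
              · exact Finset.mem_of_mem_erase (hsub h)
            · intro e he
              have he1 := Finset.mem_sdiff.mp he
              have hne : e ≠ (x, u) := fun h => he1.2 (by rw [h]; exact Finset.mem_insert_self _ _)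
              have he2 : e ∈ Sg.erase (x, u) \ f.1 := Finset.mem_sdiff.mpr
                ⟨Finset.mem_erase.mpr ⟨hne, he1.1⟩,
                  fun h => he1.2 (Finset.mem_insert_of_mem h)⟩
              rcases hprop e he2 with h | h
              · left; exact h
              · right
                have h3 : ((insert (x, u) f.1).filter (fun e' => T.Adj e'.2 e.2)).card =
                    (f.1.filter (fun e' => T.Adj e'.2 e.2)).card +
                      if T.Adj u e.2 then 1 else 0 := by
                  rw [Finset.filter_insert]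
                  split_ifs with h4
                  · rw [Finset.card_insert_of_notMem]
                    intro h5
                    exact hnot (Finset.mem_filter.mp h5).1
                  · simp
                simp only at h3 ⊢
                rw [h3]
                simp only [hcov'] at h
                omega
          · push Not at hex
            obtain ⟨f, hf, hsub, hprop⟩ := hU1 Sg (by
              intro e he
              rcases hSg e he with h | h
              · left
                refine Finset.mem_erase.mpr ⟨?_, h⟩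
                intro h2
                apply hex e.1
                rw [← h2]
                exact he
              · right; exact h)
            exact ⟨f, Finset.mem_union_left _ hf, hsub, hprop⟩

theorem CT4 : CT4_stmt := by
  intro X V _ _ _ _ T t La c k ht hLa hc hs hk
  obtain ⟨F, hF, h1, h2⟩ := CT4_aux (X := X) T t La c ht hLa hc hs k _ Finset.univ (fun _ => 0)
    rfl (fun _ _ => by omega) (by
      rw [Finset.sum_const, smul_eq_mul, Finset.card_univ, Nat.sub_zero, mul_comm _ c]
      exact hk)
  refine ⟨F, by rw [Finset.card_univ] at hF; exact hF, h1, ?_⟩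
  intro Sg
  obtain ⟨f, hf, hsub, hprop⟩ := h2 Sg (fun e _ => Or.inl (Finset.mem_univ _))
  exact ⟨f, hf, hsub, fun e he => by simpa using hprop e he⟩

end Pool.Agent.helper62.TG
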