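import Pool.Agent.helper24.TG.S1

set_option linter.all false
set_option autoImplicit false

/-!
# Counting label vectors (section 8.0 of the proof text of MP_ce98d8_co)
-/

namespace Pool.Agent.helper62.TG

open Finset Classical
open Pool.Agent.helper11.Tight (nb eo mem_nb)
open Pool.Agent.helper24.TG

section Count

variable {V : Type} [Fintype V] [DecidableEq V]

/-- counting functions on `Fin (p+1)` by the first value -/
theorem card_cons (p : ℕ) (Q : (Fin (p + 1) → V) → Prop) [DecidablePred Q]
    [∀ a, DecidablePred (fun u : Fin p → V => Q (Fin.cons a u))] :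
    (Finset.univ.filter Q).card =
      ∑ a : V, (Finset.univ.filter (fun u : Fin p → V => Q (Fin.cons a u))).card := by
  rw [← Finset.card_sigma]
  apply Finset.card_bij' (fun u _ => ⟨u 0, Fin.tail u⟩) (fun x _ => Fin.cons x.1 x.2)
  · intro u _
    simp
  · intro x _
    simp
  · intro u hu
    simp only [mem_sigma, mem_univ, mem_filter, true_and] at hu ⊢
    simpa [Fin.cons_self_tail] using hu
  · intro x hx
    simp only [mem_sigma, mem_univ, mem_filter, true_and] at hx ⊢
    exact hx

/-- the labels with few neighbours in `Z` -/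
theorem few_bad {m N d K E L tau La : ℕ} {T : SimpleGraph V} {MM : Finset (Finset V)}
    (hT : TS m N d K E L tau La T MM) (hN : 1 ≤ N)
    (Z : Finset V) (hZ : N ≤ E * Z.card) :
    E * (Finset.univ.filter (fun a : V => N * L * (nb T a ∩ Z).card < Z.card * d)).card < N := by
  by_contra hcon
  push Not at hcon
  set Y := Finset.univ.filter (fun a : V => N * L * (nb T a ∩ Z).card < Z.card * d) with hY
  have h1 := hT.mix Y Z hcon hZ
  have h2 : eo T Y Z = ∑ a ∈ Y, (nb T a ∩ Z).card := by
    unfold eo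
    rw [Finset.card_filter, Finset.sum_product]
    apply Finset.sum_congr rfl
    intro a _
    rw [← Finset.card_filter]
    congr 1
    ext z
    simp [and_comm]
  have hYne : Y.Nonempty := by
    rw [Finset.nonempty_iff_ne_empty]
    intro h0
    rw [h0] at hcon
    simp at hcon
    omega
  have h3 : N * L * eo T Y Z < Y.card * (Z.card * d) := by
    rw [h2, Finset.mul_sum, ← smul_eq_mul (Y.card), ← Finset.sum_const]
    apply Finset.sum_lt_sum_of_nonempty hYne
    intro a ha
    exact (Finset.mem_filter.mp ha).2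
  have h4 : Y.card * Z.card * d = Y.card * (Z.card * d) := by ring
  omega

/-- the common induction step of (a) and (b) -/
theorem count_step {m N d K E L tau La : ℕ} {T : SimpleGraph V} {MM : Finset (Finset V)}
    (hT : TS m N d K E L tau La T MM) (hN : 1 ≤ N) (hL : 1 ≤ L) (hE : 1 ≤ E)
    (cnt : Finset V → ℕ) (p : ℕ)
    (ih : ∀ (Z : Finset V) (s : ℕ), (E : ℝ) * Z.card * (1 - (d : ℝ) / (N * L)) ^ s < N →
      cnt Z * E ^ p ≤ (2 * N) ^ p * E ^ s)
    (Z : Finset V) (s : ℕ) (hs : (E : ℝ) * Z.card * (1 - (d : ℝ) / (N * L)) ^ s < N)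
    (hZ : N ≤ E * Z.card) :
    (∑ a : V, cnt (Z.filter (fun v => ¬ T.Adj a v))) * E ^ (p + 1) ≤
      (2 * N) ^ (p + 1) * E ^ s := by
  have hdN : d ≤ N := by
    have hne : Nonempty V := by
      rw [← Fintype.card_pos_iff, hT.card_V]; exact hN
    obtain ⟨v⟩ := hne
    rw [← hT.reg v, ← hT.card_V]
    exact Finset.card_le_univ _
  have hx0 : (0 : ℝ) ≤ 1 - (d : ℝ) / (N * L) := by
    have hN' : (0 : ℝ) < N := by exact_mod_cast hN
    have hL' : (1 : ℝ) ≤ L := by exact_mod_cast hL
    have : (d : ℝ) / (N * L) ≤ 1 := by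
      rw [div_le_one (by positivity)]
      have : (d : ℝ) ≤ N := by exact_mod_cast hdN
      nlinarith
    linarith
  obtain ⟨s', rfl⟩ : ∃ s', s = s' + 1 := by
    cases s with
    | zero =>
      exfalso
      have : (N : ℝ) ≤ E * Z.card := by exact_mod_cast hZ
      simp at hs
      linarith
    | succ s' => exact ⟨s', rfl⟩
  set Y := Finset.univ.filter (fun a : V => N * L * (nb T a ∩ Z).card < Z.card * d) with hY
  have hYc : E * Y.card < N := few_bad hT hN Z hZ
  -- bound for bad labels
  have hbad : ∀ a ∈ Y, cnt (Z.filter (fun v => ¬ T.Adj a v)) * E ^ p ≤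
      (2 * N) ^ p * E ^ (s' + 1) := by
    intro a _
    apply ih
    refine lt_of_le_of_lt ?_ hs
    have h1 : ((Z.filter (fun v => ¬ T.Adj a v)).card : ℝ) ≤ Z.card := by
      exact_mod_cast Finset.card_filter_le _ _
    have h2 : (0 : ℝ) ≤ (1 - (d : ℝ) / (N * L)) ^ (s' + 1) := pow_nonneg hx0 _
    have h3 : (0 : ℝ) ≤ E := by positivity
    nlinarith [mul_le_mul_of_nonneg_right (mul_le_mul_of_nonneg_left h1 h3) h2]
  have hgood : ∀ a ∈ Finset.univ \ Y, cnt (Z.filter (fun v => ¬ T.Adj a v)) * E ^ p ≤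
      (2 * N) ^ p * E ^ s' := by
    intro a ha
    apply ih
    have ha' : ¬ (N * L * (nb T a ∩ Z).card < Z.card * d) := by
      intro h
      simp only [hY, mem_sdiff, mem_univ, mem_filter, true_and] at ha
      exact ha h
    push Not at ha'
    have h1 : (Z.filter (fun v => ¬ T.Adj a v)).card + (nb T a ∩ Z).card = Z.card := by
      rw [← Finset.card_filter_add_card_filter_not (s := Z) (fun v => ¬ T.Adj a v)]
      congr 2
      ext v
      simp [and_comm]
    have h2 : ((Z.filter (fun v => ¬ T.Adj a v)).card : ℝ) ≤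
        Z.card * (1 - (d : ℝ) / (N * L)) := by
      have hN' : (0 : ℝ) < (N : ℝ) * L := by
        have : (0 : ℝ) < N := by exact_mod_cast hN
        have : (0 : ℝ) < L := by exact_mod_cast hL
        positivity
      have h3 : (Z.card : ℝ) * d ≤ N * L * (nb T a ∩ Z).card := by exact_mod_cast ha'
      have h4 : (Z.card : ℝ) * (d / (N * L)) ≤ (nb T a ∩ Z).card := by
        rw [mul_div_assoc', div_le_iff₀ hN']
        linarith
      have h5 : ((Z.filter (fun v => ¬ T.Adj a v)).card : ℝ) + (nb T a ∩ Z).card = Z.card := by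
        exact_mod_cast h1
      linarith
    refine lt_of_le_of_lt ?_ hs
    have h6 : (0 : ℝ) ≤ (1 - (d : ℝ) / (N * L)) ^ s' := pow_nonneg hx0 _
    have h7 : (0 : ℝ) ≤ E := by positivity
    calc (E : ℝ) * ((Z.filter (fun v => ¬ T.Adj a v)).card : ℝ) * (1 - (d : ℝ) / (N * L)) ^ s'
        ≤ (E : ℝ) * (Z.card * (1 - (d : ℝ) / (N * L))) * (1 - (d : ℝ) / (N * L)) ^ s' :=
          mul_le_mul_of_nonneg_right (mul_le_mul_of_nonneg_left h2 h7) h6
      _ = (E : ℝ) * Z.card * (1 - (d : ℝ) / (N * L)) ^ (s' + 1) := by rw [pow_succ]; ring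
  have hsplit : (∑ a : V, cnt (Z.filter (fun v => ¬ T.Adj a v))) * E ^ p =
      (∑ a ∈ Y, cnt (Z.filter (fun v => ¬ T.Adj a v)) * E ^ p) +
      ∑ a ∈ Finset.univ \ Y, cnt (Z.filter (fun v => ¬ T.Adj a v)) * E ^ p := by
    rw [Finset.sum_mul, ← Finset.sum_sdiff (Finset.subset_univ Y), add_comm]
  have h1 : ∑ a ∈ Y, cnt (Z.filter (fun v => ¬ T.Adj a v)) * E ^ p ≤
      Y.card * ((2 * N) ^ p * E ^ (s' + 1)) := by
    rw [← smul_eq_mul, ← Finset.sum_const]
    exact Finset.sum_le_sum hbad
  have h2 : ∑ a ∈ Finset.univ \ Y, cnt (Z.filter (fun v => ¬ T.Adj a v)) * E ^ p ≤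
      N * ((2 * N) ^ p * E ^ s') := by
    calc ∑ a ∈ Finset.univ \ Y, cnt (Z.filter (fun v => ¬ T.Adj a v)) * E ^ p
        ≤ ∑ a ∈ Finset.univ \ Y, (2 * N) ^ p * E ^ s' := Finset.sum_le_sum hgood
      _ = (Finset.univ \ Y).card * ((2 * N) ^ p * E ^ s') := by
          rw [Finset.sum_const, smul_eq_mul]
      _ ≤ N * ((2 * N) ^ p * E ^ s') := by
          apply Nat.mul_le_mul_right
          rw [← hT.card_V]
          exact Finset.card_le_univ _
  calc (∑ a : V, cnt (Z.filter (fun v => ¬ T.Adj a v))) * E ^ (p + 1)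
      = ((∑ a : V, cnt (Z.filter (fun v => ¬ T.Adj a v))) * E ^ p) * E := by
        rw [pow_succ]; ring
    _ ≤ (Y.card * ((2 * N) ^ p * E ^ (s' + 1)) + N * ((2 * N) ^ p * E ^ s')) * E := by
        rw [hsplit]
        exact Nat.mul_le_mul_right _ (Nat.add_le_add h1 h2)
    _ = (E * Y.card) * ((2 * N) ^ p * E ^ (s' + 1)) + N * ((2 * N) ^ p * E ^ (s' + 1)) := by
        rw [pow_succ E s']; ring
    _ ≤ N * ((2 * N) ^ p * E ^ (s' + 1)) + N * ((2 * N) ^ p * E ^ (s' + 1)) := by
        exact Nat.add_le_add_right (Nat.mul_le_mul_right _ hYc.le) _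
    _ = (2 * N) ^ (p + 1) * E ^ (s' + 1) := by rw [pow_succ (2 * N) p]; ring

/-- (LABC), general region -/
theorem labc_aux {m N d K E L tau La : ℕ} {T : SimpleGraph V} {MM : Finset (Finset V)}
    (hT : TS m N d K E L tau La T MM) (hN : 1 ≤ N) (hL : 1 ≤ L) (hE : 1 ≤ E) (p : ℕ) :
    ∀ (Z : Finset V) (s : ℕ), (E : ℝ) * Z.card * (1 - (d : ℝ) / (N * L)) ^ s < N →
      (Finset.univ.filter (fun u : Fin p → V =>
        N ≤ E * (Z.filter (fun v => ∀ i, ¬ T.Adj (u i) v)).card)).card * E ^ p ≤
      (2 * N) ^ p * E ^ s := by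
  induction p with
  | zero =>
    intro Z s _
    have h1 : (Finset.univ.filter (fun u : Fin 0 → V =>
        N ≤ E * (Z.filter (fun v => ∀ i, ¬ T.Adj (u i) v)).card)).card ≤ 1 :=
      le_trans (Finset.card_filter_le _ _) (by simp)
    have h2 : 1 ≤ E ^ s := Nat.one_le_pow _ _ hE
    simp only [pow_zero, mul_one, one_mul]
    omega
  | succ p ih =>
    intro Z s hs
    rw [card_cons]
    have hre : ∀ (a : V) (u : Fin p → V),
        Z.filter (fun v => ∀ i, ¬ T.Adj ((Fin.cons a u : Fin (p + 1) → V) i) v) =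
        (Z.filter (fun v => ¬ T.Adj a v)).filter (fun v => ∀ i, ¬ T.Adj (u i) v) := by
      intro a u
      ext v
      simp only [mem_filter, Fin.forall_fin_succ, Fin.cons_zero, Fin.cons_succ]
      tauto
    by_cases hZ : N ≤ E * Z.card
    · have := count_step hT hN hL hE (fun Z' => (Finset.univ.filter (fun u : Fin p → V =>
        N ≤ E * (Z'.filter (fun v => ∀ i, ¬ T.Adj (u i) v)).card)).card) p ih Z s hs hZ
      simp only [hre]
      exact this
    · have h0 : ∀ a : V, (Finset.univ.filter (fun u : Fin p → V =>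
          N ≤ E * (Z.filter (fun v => ∀ i,
            ¬ T.Adj ((Fin.cons a u : Fin (p + 1) → V) i) v)).card)).card = 0 := by
        intro a
        rw [Finset.card_eq_zero, Finset.filter_eq_empty_iff]
        intro u _ hu
        apply hZ
        exact le_trans hu (Nat.mul_le_mul_left _ (Finset.card_filter_le _ _))
      simp only [h0]
      simp

/-- independent vectors, general region -/
theorem labi_aux {m N d K E L tau La : ℕ} {T : SimpleGraph V} {MM : Finset (Finset V)}
    (hT : TS m N d K E L tau La T MM) (hN : 1 ≤ N) (hL : 1 ≤ L) (hE : 1 ≤ E) (p : ℕ) :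
    ∀ (Z : Finset V) (s : ℕ), (E : ℝ) * Z.card * (1 - (d : ℝ) / (N * L)) ^ s < N →
      (Finset.univ.filter (fun u : Fin p → V =>
        (∀ i, u i ∈ Z) ∧ ∀ i j, ¬ T.Adj (u i) (u j))).card * E ^ p ≤
      (2 * N) ^ p * E ^ s := by
  induction p with
  | zero =>
    intro Z s _
    have h1 : (Finset.univ.filter (fun u : Fin 0 → V =>
        (∀ i, u i ∈ Z) ∧ ∀ i j, ¬ T.Adj (u i) (u j))).card ≤ 1 :=
      le_trans (Finset.card_filter_le _ _) (by simp)
    have h2 : 1 ≤ E ^ s := Nat.one_le_pow _ _ hE
    simp only [pow_zero, mul_one, one_mul]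
    omega
  | succ p ih =>
    intro Z s hs
    by_cases hZ : N ≤ E * Z.card
    · rw [card_cons]
      have := count_step hT hN hL hE (fun Z' => (Finset.univ.filter (fun u : Fin p → V =>
        (∀ i, u i ∈ Z') ∧ ∀ i j, ¬ T.Adj (u i) (u j))).card) p ih Z s hs hZ
      refine le_trans (Nat.mul_le_mul_right _ (Finset.sum_le_sum ?_)) this
      intro a _
      apply Finset.card_le_card
      intro u hu
      simp only [mem_filter, mem_univ, true_and, Fin.forall_fin_succ, Fin.cons_zero,
        Fin.cons_succ] at hu ⊢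
      obtain ⟨⟨_, h2⟩, h3, h4⟩ := hu
      exact ⟨fun i => ⟨h2 i, h3.2 i⟩, fun i j => (h4 i).2 j⟩
    · push Not at hZ
      have h1 : (Finset.univ.filter (fun u : Fin (p + 1) → V =>
        (∀ i, u i ∈ Z) ∧ ∀ i j, ¬ T.Adj (u i) (u j))).card ≤ Z.card ^ (p + 1) := by
        have : (Fintype.piFinset (fun _ : Fin (p + 1) => Z)).card = Z.card ^ (p + 1) := by
          simp
        rw [← this]
        apply Finset.card_le_card
        intro u hu
        simp only [mem_filter, mem_univ, true_and] at hu
        rw [Fintype.mem_piFinset]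
        exact hu.1
      calc _ ≤ Z.card ^ (p + 1) * E ^ (p + 1) := Nat.mul_le_mul_right _ h1
        _ = (E * Z.card) ^ (p + 1) := by rw [mul_pow]; ring
        _ ≤ (2 * N) ^ (p + 1) := Nat.pow_le_pow_left (by omega) _
        _ ≤ (2 * N) ^ (p + 1) * E ^ s := Nat.le_mul_of_pos_right _ (Nat.pow_pos hE)

/-- the number of steps -/
theorem steps_ok {N d E L Lam f : ℕ} (hN : 1 ≤ N) (hL : 1 ≤ L) (hLam : 1 ≤ Lam)
    (hdN : d ≤ N) (hE : E ≤ 2 ^ Lam) (hf : L * N * Lam ≤ f * d) :
    (E : ℝ) * N * (1 - (d : ℝ) / (N * L)) ^ f < N := by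
  have hN' : (0 : ℝ) < N := by exact_mod_cast hN
  have hL' : (1 : ℝ) ≤ L := by exact_mod_cast hL
  have hx1 : (d : ℝ) / (N * L) ≤ 1 := by
    rw [div_le_one (by positivity)]
    have : (d : ℝ) ≤ N := by exact_mod_cast hdN
    nlinarith
  have h1 : (1 - (d : ℝ) / (N * L)) ^ f ≤ Real.exp (-(f * (d / (N * L)))) := by
    have h2 : 1 - (d : ℝ) / (N * L) ≤ Real.exp (-(d / (N * L))) := by
      have := Real.add_one_le_exp (-((d : ℝ) / (N * L)))
      linarith
    calc (1 - (d : ℝ) / (N * L)) ^ f ≤ (Real.exp (-(d / (N * L)))) ^ f :=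
          pow_le_pow_left₀ (by linarith) h2 f
      _ = Real.exp (-(f * (d / (N * L)))) := by
          rw [← Real.exp_nat_mul]; ring_nf
  have h3 : (Lam : ℝ) ≤ f * (d / (N * L)) := by
    rw [mul_div_assoc', le_div_iff₀ (by positivity)]
    have : ((L * N * Lam : ℕ) : ℝ) ≤ ((f * d : ℕ) : ℝ) := by exact_mod_cast hf
    push_cast at this
    nlinarith
  have h4 : (E : ℝ) * Real.exp (-(f * (d / (N * L)))) < 1 := by
    have hE' : (E : ℝ) ≤ 2 ^ Lam := by exact_mod_cast hE
    have h5 : Real.exp (-(f * (d / (N * L)))) ≤ Real.exp (-(Lam : ℝ)) :=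
      Real.exp_le_exp.mpr (by linarith)
    have h6 : (2 : ℝ) ^ Lam * Real.exp (-(Lam : ℝ)) < 1 := by
      have h7 : Real.exp (-(Lam : ℝ)) = (Real.exp (-1)) ^ Lam := by
        rw [← Real.exp_nat_mul]; ring_nf
      rw [h7, ← mul_pow]
      apply pow_lt_one₀ (by positivity)
      · have h8 : (2 : ℝ) < Real.exp 1 := by
          have := Real.exp_one_gt_d9
          linarith
        rw [Real.exp_neg, ← div_eq_mul_inv, div_lt_one (Real.exp_pos _)]
        exact h8
      · omega
    calc (E : ℝ) * Real.exp (-(f * (d / (N * L)))) ≤ 2 ^ Lam * Real.exp (-(Lam : ℝ)) := by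
          gcongr
      _ < 1 := h6
  calc (E : ℝ) * N * (1 - (d : ℝ) / (N * L)) ^ f ≤ E * N * Real.exp (-(f * (d / (N * L)))) := by
        gcongr
    _ = N * (E * Real.exp (-(f * (d / (N * L))))) := by ring
    _ < N * 1 := by gcongr
    _ = N := mul_one _

/-- (8.0 a) the number of vectors of labels with many common non-neighbours -/
theorem labc {m N d K E L tau La Lam f : ℕ} {T : SimpleGraph V} {MM : Finset (Finset V)}
    (hT : TS m N d K E L tau La T MM) (hN : 1 ≤ N) (hL : 1 ≤ L) (hE1 : 1 ≤ E)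
    (hLam : 1 ≤ Lam) (hE : E ≤ 2 ^ Lam) (hf : L * N * Lam ≤ f * d) (p : ℕ) :
    (Finset.univ.filter (fun u : Fin p → V =>
      N ≤ E * (Finset.univ.filter (fun v => ∀ i, ¬ T.Adj (u i) v)).card)).card * E ^ p ≤
      (2 * N) ^ p * E ^ f := by
  have hdN : d ≤ N := by
    have hne : Nonempty V := by
      rw [← Fintype.card_pos_iff, hT.card_V]; exact hN
    obtain ⟨v⟩ := hne
    rw [← hT.reg v, ← hT.card_V]
    exact Finset.card_le_univ _
  apply labc_aux hT hN hL hE1 p Finset.univ f
  rw [Finset.card_univ, hT.card_V]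
  exact steps_ok hN hL hLam hdN hE hf

/-- (8.0 b) the number of independent vectors of labels -/
theorem labi {m N d K E L tau La Lam f : ℕ} {T : SimpleGraph V} {MM : Finset (Finset V)}
    (hT : TS m N d K E L tau La T MM) (hN : 1 ≤ N) (hL : 1 ≤ L) (hE1 : 1 ≤ E)
    (hLam : 1 ≤ Lam) (hE : E ≤ 2 ^ Lam) (hf : L * N * Lam ≤ f * d) (p : ℕ) :
    (Finset.univ.filter (fun u : Fin p → V =>
      ∀ i j, ¬ T.Adj (u i) (u j))).card * E ^ p ≤ (2 * N) ^ p * E ^ f := by
  have hdN : d ≤ N := by
    have hne : Nonempty V := by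
      rw [← Fintype.card_pos_iff, hT.card_V]; exact hN
    obtain ⟨v⟩ := hne
    rw [← hT.reg v, ← hT.card_V]
    exact Finset.card_le_univ _
  have h := labi_aux hT hN hL hE1 p Finset.univ f (by
    rw [Finset.card_univ, hT.card_V]
    exact steps_ok hN hL hLam hdN hE hf)
  simpa using h

/-- labels most of whose neighbourhood is already covered are few -/
theorem few_covered {m N d K E L tau La : ℕ} {T : SimpleGraph V} {MM : Finset (Finset V)}
    (hT : TS m N d K E L tau La T MM) (W : Finset V) (h : ℕ) (hW : W.card < h) :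
    (Finset.univ.filter (fun a : V => d < 2 * (nb T a ∩ W).card)).card ≤ 2 * h := by
  set Y := Finset.univ.filter (fun a : V => d < 2 * (nb T a ∩ W).card) with hY
  have h1 : ∑ a : V, (nb T a ∩ W).card = d * W.card := by
    have h2 : ∀ a : V, (nb T a ∩ W).card = ∑ w ∈ W, if T.Adj a w then 1 else 0 := by
      intro a
      rw [← Finset.card_filter]
      congr 1
      ext w
      simp [and_comm]
    simp only [h2]
    rw [Finset.sum_comm]
    have h3 : ∀ w ∈ W, (∑ a : V, if T.Adj a w then 1 else 0) = d := by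
      intro w _
      rw [← Finset.card_filter, ← hT.reg w]
      congr 1
      ext a
      simp [T.adj_comm]
    rw [Finset.sum_congr rfl h3, Finset.sum_const, smul_eq_mul, mul_comm]
  have h4 : Y.card * (d + 1) ≤ 2 * ∑ a : V, (nb T a ∩ W).card := by
    calc Y.card * (d + 1) = ∑ a ∈ Y, (d + 1) := by rw [Finset.sum_const, smul_eq_mul]
      _ ≤ ∑ a ∈ Y, 2 * (nb T a ∩ W).card := by
          apply Finset.sum_le_sum
          intro a ha
          have := (Finset.mem_filter.mp ha).2
          omega
      _ ≤ ∑ a : V, 2 * (nb T a ∩ W).card :=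
          Finset.sum_le_sum_of_subset (Finset.subset_univ _)
      _ = 2 * ∑ a : V, (nb T a ∩ W).card := by rw [Finset.mul_sum]
  rw [h1] at h4
  by_contra hcon
  push Not at hcon
  have h5 : (2 * h) * (d + 1) < Y.card * (d + 1) := Nat.mul_lt_mul_of_pos_right hcon (by omega)
  have h6 : 2 * (d * W.card) ≤ 2 * (d * h) := by
    apply Nat.mul_le_mul_left
    exact Nat.mul_le_mul_left _ hW.le
  nlinarith

/-- (8.0 c) the number of vectors of labels with small neighbourhood, general start -/
theorem labx_aux {m N d K E L tau La : ℕ} {T : SimpleGraph V} {MM : Finset (Finset V)}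
    (hT : TS m N d K E L tau La T MM) (h : ℕ) (hh : 2 * h ≤ N) (p : ℕ) :
    ∀ (W : Finset V) (a : ℕ), 2 * h ≤ 2 * W.card + (a + 1) * d →
      (Finset.univ.filter (fun u : Fin p → V =>
        (Finset.univ.filter (fun x : V => x ∈ W ∨ ∃ i, T.Adj (u i) x)).card < h)).card *
          (2 * h) ^ a ≤ (4 * h) ^ p * N ^ a := by
  induction p with
  | zero =>
    intro W a _
    have h1 : (Finset.univ.filter (fun u : Fin 0 → V =>
        (Finset.univ.filter (fun x : V => x ∈ W ∨ ∃ i, T.Adj (u i) x)).card < h)).card ≤ 1 :=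
      le_trans (Finset.card_filter_le _ _) (by simp)
    calc _ ≤ 1 * N ^ a := Nat.mul_le_mul h1 (Nat.pow_le_pow_left hh a)
      _ = (4 * h) ^ 0 * N ^ a := by simp
  | succ p ih =>
    intro W a ha
    rw [card_cons]
    have hre : ∀ (b : V) (u : Fin p → V),
        Finset.univ.filter (fun x : V => x ∈ W ∨
          ∃ i, T.Adj ((Fin.cons b u : Fin (p + 1) → V) i) x) =
        Finset.univ.filter (fun x : V => x ∈ W ∪ nb T b ∨ ∃ i, T.Adj (u i) x) := by
      intro b u
      ext v
      simp only [mem_filter, mem_univ, true_and, Fin.exists_fin_succ, Fin.cons_zero,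
        Fin.cons_succ, mem_union, mem_nb]
      tauto
    simp only [hre]
    by_cases hW : W.card < h
    · set Y := Finset.univ.filter (fun b : V => d < 2 * (nb T b ∩ W).card) with hY
      have hYc : Y.card ≤ 2 * h := few_covered hT W h hW
      have hcard : ∀ b : V, (W ∪ nb T b).card + (nb T b ∩ W).card = W.card + d := by
        intro b
        rw [← hT.reg b, Finset.inter_comm]
        exact Finset.card_union_add_card_inter _ _
      set g : V → ℕ := fun b => (Finset.univ.filter (fun u : Fin p → V =>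
        (Finset.univ.filter (fun x : V => x ∈ W ∪ nb T b ∨ ∃ i, T.Adj (u i) x)).card < h)).card
        with hg
      have hbad : ∀ b ∈ Y, g b * (2 * h) ^ a ≤ (4 * h) ^ p * N ^ a := by
        intro b _
        apply ih
        have h2 : W.card ≤ (W ∪ nb T b).card := Finset.card_le_card Finset.subset_union_left
        omega
      have hNuniv : (Finset.univ \ Y).card ≤ N := by
        rw [← hT.card_V]
        exact Finset.card_le_univ _
      have hsum : (∑ b : V, g b) * (2 * h) ^ a =
          (∑ b ∈ Y, g b * (2 * h) ^ a) + (∑ b ∈ Finset.univ \ Y, g b) * (2 * h) ^ a := by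
        rw [← Finset.sum_mul, ← add_mul]
        congr 1
        rw [← Finset.sum_sdiff (Finset.subset_univ Y), add_comm]
      have h1 : ∑ b ∈ Y, g b * (2 * h) ^ a ≤ (2 * h) * ((4 * h) ^ p * N ^ a) := by
        calc ∑ b ∈ Y, g b * (2 * h) ^ a ≤ ∑ b ∈ Y, (4 * h) ^ p * N ^ a := Finset.sum_le_sum hbad
          _ = Y.card * ((4 * h) ^ p * N ^ a) := by rw [Finset.sum_const, smul_eq_mul]
          _ ≤ (2 * h) * ((4 * h) ^ p * N ^ a) := Nat.mul_le_mul_right _ hYc
      have h2 : (∑ b ∈ Finset.univ \ Y, g b) * (2 * h) ^ a ≤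
          (2 * h) * ((4 * h) ^ p * N ^ a) := by
        cases a with
        | zero =>
          have h3 : ∀ b ∈ Finset.univ \ Y, g b = 0 := by
            intro b hb
            have hb' : ¬ d < 2 * (nb T b ∩ W).card := by
              intro hc
              simp only [hY, mem_sdiff, mem_univ, mem_filter, true_and] at hb
              exact hb hc
            rw [hg]
            simp only
            rw [Finset.card_eq_zero, Finset.filter_eq_empty_iff]
            intro u _ hu
            have h4 : (W ∪ nb T b).card ≤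
                (Finset.univ.filter (fun x : V => x ∈ W ∪ nb T b ∨ ∃ i, T.Adj (u i) x)).card := by
              apply Finset.card_le_card
              intro x hx
              simp only [mem_filter, mem_univ, true_and]
              exact Or.inl hx
            have h5 := hcard b
            omega
          rw [Finset.sum_eq_zero h3]
          simp
        | succ a =>
          have hgood : ∀ b ∈ Finset.univ \ Y, g b * (2 * h) ^ a ≤ (4 * h) ^ p * N ^ a := by
            intro b hb
            have hb' : ¬ d < 2 * (nb T b ∩ W).card := by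
              intro hc
              simp only [hY, mem_sdiff, mem_univ, mem_filter, true_and] at hb
              exact hb hc
            apply ih
            have h5 := hcard b
            have h6 : (a + 1 + 1) * d = (a + 1) * d + d := by ring
            omega
          calc (∑ b ∈ Finset.univ \ Y, g b) * (2 * h) ^ (a + 1)
              = (∑ b ∈ Finset.univ \ Y, g b * (2 * h) ^ a) * (2 * h) := by
                rw [← Finset.sum_mul, pow_succ]; ring
            _ ≤ (∑ b ∈ Finset.univ \ Y, (4 * h) ^ p * N ^ a) * (2 * h) :=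
                Nat.mul_le_mul_right _ (Finset.sum_le_sum hgood)
            _ = ((Finset.univ \ Y).card * ((4 * h) ^ p * N ^ a)) * (2 * h) := by
                rw [Finset.sum_const, smul_eq_mul]
            _ ≤ (N * ((4 * h) ^ p * N ^ a)) * (2 * h) :=
                Nat.mul_le_mul_right _ (Nat.mul_le_mul_right _ hNuniv)
            _ = (2 * h) * ((4 * h) ^ p * N ^ (a + 1)) := by rw [pow_succ]; ring
      calc (∑ b : V, g b) * (2 * h) ^ a
          = (∑ b ∈ Y, g b * (2 * h) ^ a) + (∑ b ∈ Finset.univ \ Y, g b) * (2 * h) ^ a := hsum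
        _ ≤ (2 * h) * ((4 * h) ^ p * N ^ a) + (2 * h) * ((4 * h) ^ p * N ^ a) :=
            Nat.add_le_add h1 h2
        _ = (4 * h) ^ (p + 1) * N ^ a := by rw [pow_succ]; ring
    · have h0 : ∀ b : V, (Finset.univ.filter (fun u : Fin p → V =>
          (Finset.univ.filter (fun x : V => x ∈ W ∪ nb T b ∨
            ∃ i, T.Adj (u i) x)).card < h)).card = 0 := by
        intro b
        rw [Finset.card_eq_zero, Finset.filter_eq_empty_iff]
        intro u _ hu
        apply hW
        refine lt_of_le_of_lt (Finset.card_le_card ?_) hu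
        intro x hx
        simp only [mem_filter, mem_univ, true_and]
        exact Or.inl (Finset.mem_union_left _ hx)
      simp only [h0]
      simp

end Count

/-! ### the statements of the module list -/

theorem f1_ok (p : Par) : p.L * p.N * p.Lam ≤ p.f1 * p.d := by
  unfold Par.f1
  have h := Nat.lt_div_mul_add (a := p.L * p.N * p.Lam) (b := p.d) (by have := p.hd; omega)
  have : (p.L * p.N * p.Lam / p.d + 1) * p.d = p.L * p.N * p.Lam / p.d * p.d + p.d := by ring
  omega

theorem E_pos (p : Par) : 1 ≤ p.E := by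
  have h := p.N8
  have hc : 1 ≤ p.c := by
    have := p.hLog
    have := p.hLam
    omega
  have hB : 1 ≤ p.B := le_trans (Nat.one_le_pow _ _ hc) p.N7
  exact le_trans (Nat.one_le_pow _ _ (Nat.mul_pos hc hB)) h

theorem QC1 : QC1_stmt := by
  intro p V _ _ T MM hT k
  have h := labc hT p.hN p.hL (E_pos p) p.hLam p.s3 (f1_ok p) k
  rw [mul_pow] at h
  exact h

theorem QC2 : QC2_stmt := by
  intro p V _ _ T MM hT k
  have h := labi hT p.hN p.hL (E_pos p) p.hLam p.s3 (f1_ok p) k
  rw [mul_pow] at h
  exact h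

theorem QC3 : QC3_stmt := by
  intro p V _ _ T MM hT k h a hN ha
  have h1 := labx_aux hT h hN k ∅ a (by simpa using ha)
  have h2 : (4 * h) ^ k * p.N ^ a = 2 ^ k * p.N ^ a * (2 * h) ^ k := by
    have : 4 * h = 2 * (2 * h) := by ring
    rw [this, mul_pow]
    ring
  rw [h2] at h1
  simpa using h1

end Pool.Agent.helper62.TG
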