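import Pool.Agent.helper24.TG.Props

set_option linter.all false
set_option autoImplicit false

/-!
# Numeric consequences of the conditions in `Par` (MP_ce98d8_co), after helper41
-/

namespace Pool.Agent.helper62.TG.Nm

open Finset Classical
open Pool.Agent.helper24.TG

section Num

variable (p : Par)

theorem c_ge : 10 ^ 6 ≤ p.c := by
  have h1 := p.hLog
  have h2 := p.hLam
  nlinarith

theorem c_pos : 0 < p.c := lt_of_lt_of_le (by norm_num) (c_ge p)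

theorem q_ge : p.c ^ (p.kT + 12) ≤ p.q := by
  have h1 := p.N4
  have h2 := p.hLa
  exact le_trans (Nat.le_mul_of_pos_left _ h2) h1

theorem q_pos : 0 < p.q := lt_of_lt_of_le (pow_pos (c_pos p) _) (q_ge p)

theorem w_ge : p.c ^ 10 * (p.K + 1) ≤ p.w := p.N1

theorem w_pos : 0 < p.w :=
  lt_of_lt_of_le (Nat.mul_pos (pow_pos (c_pos p) _) (Nat.succ_pos _)) (w_ge p)

theorem B_pos : 0 < p.B := lt_of_lt_of_le (pow_pos (c_pos p) _) p.N7

theorem d_pos : 0 < p.d := by have := p.hd; omega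

theorem N_pos : 0 < p.N := p.hN

theorem C_pos : 0 < p.C := by
  rcases Nat.eq_zero_or_pos p.C with h | h
  · have h1 := p.hC1
    rw [h] at h1
    have : 0 < p.c ^ 3 * p.q * p.d :=
      Nat.mul_pos (Nat.mul_pos (pow_pos (c_pos p) _) (q_pos p)) (d_pos p)
    omega
  · exact h

theorem C_two : 2 ≤ p.C := by
  obtain ⟨a, ha⟩ := p.hCe
  have := C_pos p
  omega

/-! real versions -/

theorem rc : (10 : ℝ) ^ 6 ≤ p.c := by exact_mod_cast c_ge p
theorem rc0 : (0 : ℝ) < p.c := lt_of_lt_of_le (by norm_num) (rc p)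
theorem rc1 : (1 : ℝ) ≤ p.c := le_trans (by norm_num) (rc p)
theorem rq : (0 : ℝ) < p.q := by exact_mod_cast q_pos p
theorem rw' : (0 : ℝ) < p.w := by exact_mod_cast w_pos p
theorem rB : (0 : ℝ) < p.B := by exact_mod_cast B_pos p
theorem rd : (0 : ℝ) < p.d := by exact_mod_cast d_pos p
theorem rd1 : (1 : ℝ) ≤ p.d := by exact_mod_cast d_pos p
theorem rN : (0 : ℝ) < p.N := by exact_mod_cast N_pos p
theorem rC : (0 : ℝ) < p.C := by exact_mod_cast C_pos p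
theorem rK : (0 : ℝ) ≤ p.K := Nat.cast_nonneg _

theorem rLam : (10 : ℝ) ^ 6 * p.Lam ≤ p.c := by exact_mod_cast p.hLog

/-- `rho q = w d` -/
theorem rho_q : p.rho * p.q = p.w * p.d := by
  have h : (p.q : ℝ) ^ 2 = p.w * p.N := by exact_mod_cast p.hw
  have hN := rN p
  unfold Par.rho
  rw [div_mul_eq_mul_div, div_eq_iff hN.ne']
  calc (p.q : ℝ) * p.d * p.q = p.q ^ 2 * p.d := by ring
    _ = _ := by rw [h]; ring

theorem rho_pos : 0 < p.rho := by
  unfold Par.rho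
  exact div_pos (mul_pos (rq p) (rd p)) (rN p)

/-- `q / N = w / q` -/
theorem q_div_N : (p.q : ℝ) / p.N = p.w / p.q := by
  have h : (p.q : ℝ) ^ 2 = p.w * p.N := by exact_mod_cast p.hw
  rw [div_eq_div_iff (rN p).ne' (rq p).ne']
  rw [← h]; ring

theorem rho_ge : ((p.c : ℝ) * p.B) ^ 100 * (p.K + 1) ≤ p.rho := by
  have h : ((p.c : ℝ) * p.B) ^ 100 * p.L * (p.K + 1) * p.N ≤ p.q * p.d := by exact_mod_cast p.N2
  have hL : (1 : ℝ) ≤ p.L := by exact_mod_cast p.hL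
  unfold Par.rho
  rw [le_div_iff₀ (rN p)]
  refine le_trans ?_ h
  have h0 : 0 ≤ ((p.c : ℝ) * p.B) ^ 100 := pow_nonneg (mul_nonneg (rc0 p).le (rB p).le) _
  generalize ((p.c : ℝ) * p.B) ^ 100 = X at h0 ⊢
  have h1 : 0 ≤ X * (p.K + 1) * p.N := by have := rN p; positivity
  nlinarith

theorem qC_le : (p.q : ℝ) * p.C ≤ 2 * p.c ^ 3 * (p.w * p.d) := by
  have h : (p.C : ℝ) * p.N ≤ 2 * p.c ^ 3 * p.q * p.d := by exact_mod_cast p.hC2
  have hw : (p.q : ℝ) ^ 2 = p.w * p.N := by exact_mod_cast p.hw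
  have h2 := mul_le_mul_of_nonneg_left h (rq p).le
  have h3 : (p.q : ℝ) * p.C * p.N ≤ 2 * p.c ^ 3 * (p.w * p.d) * p.N := by
    calc (p.q : ℝ) * p.C * p.N = p.q * (p.C * p.N) := by ring
      _ ≤ p.q * (2 * p.c ^ 3 * p.q * p.d) := h2
      _ = 2 * p.c ^ 3 * p.d * p.q ^ 2 := by ring
      _ = _ := by rw [hw]; ring
  exact le_of_mul_le_mul_right h3 (rN p)

theorem qC_ge : (p.c : ℝ) ^ 3 * (p.w * p.d) ≤ p.q * p.C := by
  have h : (p.c : ℝ) ^ 3 * p.q * p.d ≤ (p.C : ℝ) * p.N := by exact_mod_cast p.hC1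
  have hw : (p.q : ℝ) ^ 2 = p.w * p.N := by exact_mod_cast p.hw
  have h2 := mul_le_mul_of_nonneg_left h (rq p).le
  have h3 : (p.c : ℝ) ^ 3 * (p.w * p.d) * p.N ≤ (p.q : ℝ) * p.C * p.N := by
    calc (p.c : ℝ) ^ 3 * (p.w * p.d) * p.N = (p.c : ℝ) ^ 3 * p.d * (p.w * p.N) := by ring
      _ = (p.c : ℝ) ^ 3 * p.d * p.q ^ 2 := by rw [hw]
      _ = p.q * ((p.c : ℝ) ^ 3 * p.q * p.d) := by ring
      _ ≤ p.q * (p.C * p.N) := h2
      _ = _ := by ring
  exact le_of_mul_le_mul_right h3 (rN p)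

/-- `k` as a real number -/
theorem k_cast : (p.k : ℝ) = p.q * (p.C - 1) + (p.B - 1) * (p.w * p.d) := by
  unfold Par.k
  rw [Nat.cast_add, Nat.cast_mul, Nat.cast_mul, Nat.cast_sub (C_pos p), Nat.cast_sub (B_pos p)]
  push_cast
  ring

end Num

end Pool.Agent.helper62.TG.Nm
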