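import Pool.Agent.helper24.TG.S2
import Pool.Agent.helper62.TG.Nm

set_option linter.all false
set_option autoImplicit false

/-!
# Modules PP2 and PP3 (MP_ce98d8_co)
-/

namespace Pool.Agent.helper24.TG

open Finset Classical
open Pool.Agent.helper11.Tight (nb eo mem_nb)
open Pool.Agent.helper62.TG.Nm (c_ge c_pos q_ge q_pos w_pos B_pos C_pos C_two rc rc0 rq rB rd rN
  rho_pos rho_ge)

section

variable {P O A V : Type} [Fintype P] [DecidableEq P] [Fintype O] [DecidableEq O]
  [Fintype A] [DecidableEq A] [AddCommGroup A] [Fintype V] [DecidableEq V]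

/-- sums over the types of an affine set of points -/
theorem PP23_sum {q : ℕ} (H : Host P O q) (Y : Finset (P × A)) (hY : Y ⊆ XA A H) (φ : P → V)
    (Z : Finset V) :
    (∑ t ∈ PA H, if φ t ∈ Z then ((Y.filter (fun x => x.1 = t)).card : ℝ) else 0) =
      ((Y ∩ labS A φ Z).card : ℝ) := by
  have h1 : (Y ∩ labS A φ Z).card = ∑ t ∈ PA H, ((Y ∩ labS A φ Z).filter (fun x => x.1 = t)).card := by
    apply Finset.card_eq_sum_card_fiberwise
    intro x hx
    have hx1 := hY (Finset.mem_inter.mp hx).1
    simpa using hx1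
  rw [h1]
  push_cast
  apply Finset.sum_congr rfl
  intro t _
  split_ifs with h
  · congr 2
    ext x
    simp only [mem_filter, mem_inter, mem_labS]
    constructor
    · rintro ⟨hx, rfl⟩
      exact ⟨⟨hx, h⟩, rfl⟩
    · rintro ⟨⟨hx, _⟩, rfl⟩
      exact ⟨hx, rfl⟩
  · symm
    rw [Nat.cast_eq_zero, Finset.card_eq_zero, Finset.filter_eq_empty_iff]
    intro x hx hxt
    apply h
    rw [← hxt]
    exact mem_labS.mp (Finset.mem_inter.mp hx).2

theorem PP23_tot {q : ℕ} (H : Host P O q) (Y : Finset (P × A)) (hY : Y ⊆ XA A H) :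
    (∑ t ∈ PA H, ((Y.filter (fun x => x.1 = t)).card : ℝ)) = (Y.card : ℝ) := by
  have h1 : Y.card = ∑ t ∈ PA H, (Y.filter (fun x => x.1 = t)).card := by
    apply Finset.card_eq_sum_card_fiberwise
    intro x hx
    have hx1 := hY hx
    simpa using hx1
  rw [h1]
  push_cast
  rfl

theorem PP23_fib (Y : Finset (P × A)) (t : P) :
    (Y.filter (fun x => x.1 = t)).card ≤ Fintype.card A := by
  rw [← Finset.card_univ]
  apply Finset.card_le_card_of_injOn (fun x => x.2) (fun _ _ => Finset.mem_univ _)
  intro x hx y hy h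
  have hx1 := (Finset.mem_filter.mp hx).2
  have hy1 := (Finset.mem_filter.mp hy).2
  exact Prod.ext (hx1.trans hy1.symm) h

end

/-- powers of two against exponentials -/
theorem PP23_exp (k : ℕ) (x : ℝ) (h : (k : ℝ) ≤ x) : (2 : ℝ) ^ k ≤ Real.exp x := by
  have h1 : (2 : ℝ) ≤ Real.exp 1 := by
    have := Real.exp_one_gt_d9
    linarith
  calc (2 : ℝ) ^ k ≤ (Real.exp 1) ^ k := pow_le_pow_left₀ (by norm_num) h1 k
    _ = Real.exp k := by rw [← Real.exp_nat_mul, mul_one]
    _ ≤ Real.exp x := Real.exp_le_exp.mpr h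

theorem PP23_tail (a k M : ℕ) (x : ℝ) (h : (a : ℝ) * Real.exp x ≤ M) (hk : (k : ℝ) ≤ x) :
    a * 2 ^ k ≤ M := by
  have h1 : (a : ℝ) * 2 ^ k ≤ M := le_trans
    (mul_le_mul_of_nonneg_left (PP23_exp k x hk) (Nat.cast_nonneg _)) h
  exact_mod_cast h1

/-- size of the set of points -/
theorem PP23_size (p : Par) {P O A : Type} [Fintype P] [DecidableEq P] [Fintype O]
    [DecidableEq O] [Fintype A] (H : Host P O p.q) (hA : Fintype.card A = p.B) :
    Fintype.card (P × A) + p.N ≤ 2 ^ p.Lam := by
  have h1 := p.s1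
  have hq := q_pos p
  have hB := B_pos p
  have hC := C_two p
  have hw := w_pos p
  have hN : p.N ≤ p.q ^ 2 := by
    rw [p.hw]
    exact Nat.le_mul_of_pos_left _ hw
  rw [Fintype.card_prod, H.card_P, hA]
  have hqq : p.q ≤ p.q ^ 2 := by nlinarith
  have h1q : 1 ≤ p.q ^ 2 := Nat.pow_pos hq
  have h2 : (p.q ^ 2 + p.q + 1) * p.B ≤ 3 * p.q ^ 2 * p.B := by
    apply Nat.mul_le_mul_right
    omega
  have h3 : p.q ^ 2 ≤ p.q ^ 2 * p.B := Nat.le_mul_of_pos_right _ hB
  have h4 : 4 * p.B * p.q ^ 2 * 2 ≤ 4 * p.B * p.q ^ 2 * p.C := Nat.mul_le_mul_left _ hC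
  nlinarith

/-- module PP3 -/
theorem PP3 (lb3 : LB3_stmt) : PP3_stmt := by
  intro p P O A V _ _ _ _ _ _ _ _ _ H v v0 hA hV
  set Ω := Psi p H v0 with hΩ
  have hB := rB p
  have hLam : 1 ≤ p.Lam := p.hLam
  -- one index
  have key : ∀ i ∈ (Finset.univ : Finset Bool), (Ω.filter (fun φ => ∃ U : Finset ((P × A) ⊕ V),
      U.Nonempty ∧ (U.toLeft ⊆ XA A H ∧ U.toLeft.Nonempty ∧ U.toRight.Nonempty ∧
        2 * p.q * (U.toLeft.card : ℝ) * U.toRight.card / p.N +
          8 * p.B * (U.toLeft.card + U.toRight.card) * p.Lam <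
        ((NbS H v i U.toLeft ∩ XA A H ∩ labS A φ U.toRight).card : ℝ)))).card *
      2 ^ (1 + 8 * p.Lam) ≤ Ω.card := by
    intro i _
    apply ub_sets Ω p.Lam (1 + 8 * p.Lam)
    · rw [Fintype.card_sum, hV]
      exact PP23_size p H hA
    · intro U _
      by_cases hU : U.toLeft ⊆ XA A H ∧ U.toLeft.Nonempty ∧ U.toRight.Nonempty
      · obtain ⟨h1, h2, h3⟩ := hU
        set S := U.toLeft with hS
        set D := U.toRight with hD
        have hcard : U.card = S.card + D.card := by
          rw [hS, hD, Finset.card_toLeft_add_card_toRight]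
        have hSc : 1 ≤ S.card := Finset.card_pos.mpr h2
        have hDc : 1 ≤ D.card := Finset.card_pos.mpr h3
        set Y := NbS H v i S ∩ XA A H with hY
        have hYX : Y ⊆ XA A H := Finset.inter_subset_right
        have h4 := lb3 p P O V H v0 hV D (PA H)
          (fun t => ((Y.filter (fun x => x.1 = t)).card : ℝ)) p.B
          (8 * p.B * (S.card + D.card) * p.Lam) (le_refl _) hB (by
            intro t _
            refine ⟨Nat.cast_nonneg _, ?_⟩
            have := PP23_fib Y t
            rw [hA] at this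
            exact_mod_cast this)
        rw [PP23_tot H Y hYX] at h4
        have h5 : ((Ω.filter (fun φ => 2 * p.q * (S.card : ℝ) * D.card / p.N +
            8 * p.B * (S.card + D.card) * p.Lam < ((Y ∩ labS A φ D).card : ℝ))).card : ℝ) *
            Real.exp (8 * p.B * (S.card + D.card) * p.Lam / p.B) ≤ Ω.card := by
          refine le_trans (mul_le_mul_of_nonneg_right ?_ (Real.exp_pos _).le) h4
          have : (Ω.filter (fun φ => 2 * p.q * (S.card : ℝ) * D.card / p.N +
              8 * p.B * (S.card + D.card) * p.Lam < ((Y ∩ labS A φ D).card : ℝ))) ⊆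
              (Psi p H v0).filter (fun φ => 2 * ((D.card : ℝ) / p.N * (Y.card : ℝ)) +
                8 * p.B * (S.card + D.card) * p.Lam ≤ ∑ t ∈ PA H,
                  if φ t ∈ D then ((Y.filter (fun x => x.1 = t)).card : ℝ) else 0) := by
            intro φ hφ
            rw [Finset.mem_filter] at hφ ⊢
            refine ⟨hφ.1, ?_⟩
            rw [PP23_sum H Y hYX φ D]
            have h6 : (Y.card : ℝ) ≤ p.q * S.card := by
              exact_mod_cast card_NbS_XA_le H v i S
            have h7 : 2 * ((D.card : ℝ) / p.N * (Y.card : ℝ)) ≤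
                2 * p.q * (S.card : ℝ) * D.card / p.N := by
              calc 2 * ((D.card : ℝ) / p.N * (Y.card : ℝ))
                  ≤ 2 * ((D.card : ℝ) / p.N * (p.q * S.card)) := by gcongr
                _ = _ := by ring
            linarith [hφ.2]
          exact_mod_cast Finset.card_le_card this
        have h8 : (8 : ℝ) * p.B * (S.card + D.card) * p.Lam / p.B =
            8 * (S.card + D.card) * p.Lam := by
          field_simp
        rw [h8] at h5
        have h9 := PP23_tail _ ((p.Lam + 1) * U.card + (1 + 8 * p.Lam)) _ _ h5 (by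
          have : (p.Lam + 1) * U.card + (1 + 8 * p.Lam) ≤ 8 * (S.card + D.card) * p.Lam := by
            rw [hcard]
            set s := S.card + D.card with hs
            have hs2 : 2 ≤ s := by omega
            nlinarith
          exact_mod_cast this)
        refine le_trans (Nat.mul_le_mul_right _ (Finset.card_le_card ?_)) h9
        intro φ hφ
        rw [Finset.mem_filter] at hφ ⊢
        exact ⟨hφ.1, hφ.2.2.2.2⟩
      · have : (Ω.filter (fun φ => U.toLeft ⊆ XA A H ∧ U.toLeft.Nonempty ∧
            U.toRight.Nonempty ∧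
            2 * p.q * (U.toLeft.card : ℝ) * U.toRight.card / p.N +
              8 * p.B * (U.toLeft.card + U.toRight.card) * p.Lam <
            ((NbS H v i U.toLeft ∩ XA A H ∩ labS A φ U.toRight).card : ℝ))) = ∅ := by
          rw [Finset.filter_eq_empty_iff]
          intro φ _ hφ
          exact hU ⟨hφ.1, hφ.2.1, hφ.2.2.1⟩
        rw [this]
        simp
  have hfin := ub Ω (Finset.univ : Finset Bool) (fun i φ => ∃ U : Finset ((P × A) ⊕ V),
      U.Nonempty ∧ (U.toLeft ⊆ XA A H ∧ U.toLeft.Nonempty ∧ U.toRight.Nonempty ∧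
        2 * p.q * (U.toLeft.card : ℝ) * U.toRight.card / p.N +
          8 * p.B * (U.toLeft.card + U.toRight.card) * p.Lam <
        ((NbS H v i U.toLeft ∩ XA A H ∩ labS A φ U.toRight).card : ℝ))) 1 (8 * p.Lam)
    (by simp) key
  refine le_trans (Nat.mul_le_mul_right _ (Finset.card_le_card ?_)) hfin
  intro φ hφ
  rw [Finset.mem_filter] at hφ ⊢
  refine ⟨hφ.1, ?_⟩
  have h1 := hφ.2
  unfold P3 at h1
  push Not at h1
  obtain ⟨i, S, D, hS, hlt⟩ := h1
  have hSne : S.Nonempty := by
    by_contra hne
    rw [Finset.not_nonempty_iff_eq_empty] at hne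
    subst hne
    have : NbS H v i (∅ : Finset (P × A)) = ∅ := by simp [NbS]
    rw [this] at hlt
    simp at hlt
    have : (0 : ℝ) ≤ 8 * p.B * D.card * p.Lam := by positivity
    linarith
  have hDne : D.Nonempty := by
    by_contra hne
    rw [Finset.not_nonempty_iff_eq_empty] at hne
    subst hne
    have : labS A φ (∅ : Finset V) = ∅ := by simp [labS]
    rw [this] at hlt
    simp at hlt
    have : (0 : ℝ) ≤ 8 * p.B * S.card * p.Lam := by positivity
    linarith
  refine ⟨i, Finset.mem_univ _, S.disjSum D, ?_, ?_, ?_, ?_, ?_⟩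
  · obtain ⟨x, hx⟩ := hSne
    exact ⟨Sum.inl x, Finset.inl_mem_disjSum.mpr hx⟩
  · rw [Finset.toLeft_disjSum]; exact hS
  · rw [Finset.toLeft_disjSum]; exact hSne
  · rw [Finset.toRight_disjSum]; exact hDne
  · rw [Finset.toLeft_disjSum, Finset.toRight_disjSum]; exact hlt

/-- module PP2 -/
theorem PP2 (lb4 : LB4_stmt) : PP2_stmt := by
  intro p P O A V _ _ _ _ _ _ _ _ _ H v T MM v0 hA hT h4
  set Ω := Psi p H v0 with hΩ
  have hB := rB p
  have hN := rN p
  have hq := rq p
  have hd := rd p
  have hLam : 1 ≤ p.Lam := p.hLam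
  have hq64 : (56 : ℝ) ≤ p.q := by
    have h1 : p.c ≤ p.q := le_trans (by
      have : p.c ^ 1 ≤ p.c ^ (p.kT + 12) := Nat.pow_le_pow_right (c_pos p) (by omega)
      simpa using this) (q_ge p)
    have h2 := c_ge p
    have h3 : (p.c : ℝ) ≤ p.q := by exact_mod_cast h1
    have h4 := rc p
    linarith
  have key : ∀ e ∈ (Finset.univ : Finset Bool) ×ˢ MM, (Ω.filter (fun φ =>
      ∃ S : Finset (P × A), S.Nonempty ∧ (S ⊆ XA A H ∧ 1000 * S.card ≤ p.q * p.B ∧
        ((NbS H v e.1 S ∩ XA A H ∩ labS A φ e.2).card : ℝ) <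
          (3 / 4 : ℝ) * p.rho * S.card))).card * 2 ^ ((p.Lam + 1) + 8 * p.Lam) ≤ Ω.card := by
    intro e he
    obtain ⟨i, M⟩ := e
    have hM : M ∈ MM := (Finset.mem_product.mp he).2
    have hMc := hT.card_M M hM
    apply ub_sets Ω p.Lam ((p.Lam + 1) + 8 * p.Lam)
    · exact le_trans (Nat.le_add_right _ _) (PP23_size p H hA)
    · intro S hSne
      have hSc : 1 ≤ S.card := Finset.card_pos.mpr hSne
      by_cases hS : S ⊆ XA A H ∧ 1000 * S.card ≤ p.q * p.B
      · obtain ⟨hS1, hS2⟩ := hS
        set Y := NbS H v i S ∩ XA A H with hY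
        have hYX : Y ⊆ XA A H := Finset.inter_subset_right
        -- size of Y
        have hYc : (7 / 8 : ℝ) * p.q * S.card - S.card ≤ Y.card := by
          have h1 := h4 S hS2
          rw [← card_NbS H v i S] at h1
          have h2 := card_NbS_sdiff_XA H v i hS1
          have h3 := Finset.card_sdiff_add_card_inter (NbS H v i S) (XA A H)
          have h1' : (7 : ℝ) * p.q * S.card ≤ 8 * (NbS H v i S).card := by exact_mod_cast h1
          have h2' : ((NbS H v i S \ XA A H).card : ℝ) ≤ S.card := by exact_mod_cast h2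
          have h3' : ((NbS H v i S \ XA A H).card : ℝ) + (Y.card : ℝ) =
              (NbS H v i S).card := by exact_mod_cast h3
          linarith
        have h5 := lb4 p P O V H v0 hT.card_V M (PA H)
          (fun t => ((Y.filter (fun x => x.1 = t)).card : ℝ)) p.B (1 / 8)
          (le_refl _) hB (by norm_num) (by norm_num) (by
            intro t _
            refine ⟨Nat.cast_nonneg _, ?_⟩
            have := PP23_fib Y t
            rw [hA] at this
            exact_mod_cast this)
        rw [PP23_tot H Y hYX, hMc] at h5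
        have hSr : (1 : ℝ) ≤ S.card := by exact_mod_cast hSc
        have hmean : (6 / 7 : ℝ) * p.rho * S.card ≤ (p.d : ℝ) / p.N * Y.card := by
          have h6 : (6 / 7 : ℝ) * p.q * S.card ≤ Y.card := by nlinarith
          have h7 : (6 / 7 : ℝ) * p.rho * S.card = (p.d : ℝ) / p.N * (6 / 7 * p.q * S.card) := by
            unfold Par.rho
            ring
          rw [h7]
          exact mul_le_mul_of_nonneg_left h6 (by positivity)
        have h8 : ((Ω.filter (fun φ => ((Y ∩ labS A φ M).card : ℝ) <
            (3 / 4 : ℝ) * p.rho * S.card)).card : ℝ) *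
            Real.exp ((1 / 8) ^ 2 * ((p.d : ℝ) / p.N * Y.card) / (2 * p.B)) ≤ Ω.card := by
          refine le_trans (mul_le_mul_of_nonneg_right ?_ (Real.exp_pos _).le) h5
          have : (Ω.filter (fun φ => ((Y ∩ labS A φ M).card : ℝ) <
              (3 / 4 : ℝ) * p.rho * S.card)) ⊆
              (Psi p H v0).filter (fun φ => (∑ t ∈ PA H,
                if φ t ∈ M then ((Y.filter (fun x => x.1 = t)).card : ℝ) else 0) ≤
                  (1 - 1 / 8) * ((p.d : ℝ) / p.N * Y.card)) := by
            intro φ hφ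
            rw [Finset.mem_filter] at hφ ⊢
            refine ⟨hφ.1, ?_⟩
            rw [PP23_sum H Y hYX φ M]
            have h9 := hφ.2
            linarith
          exact_mod_cast Finset.card_le_card this
        have h10 := PP23_tail _ ((p.Lam + 1) * S.card + ((p.Lam + 1) + 8 * p.Lam)) _ _ h8 (by
          have h11 : (p.c : ℝ) * p.B * 1000 ≤ p.rho := by
            refine le_trans ?_ (rho_ge p)
            have hK : (1 : ℝ) ≤ (p.K : ℝ) + 1 := by
              have : (0 : ℝ) ≤ p.K := Nat.cast_nonneg _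
              linarith
            have hc := rc p
            have hB1 : (1 : ℝ) ≤ p.B := by exact_mod_cast B_pos p
            have h12 : (1000 : ℝ) ≤ (p.c : ℝ) * p.B := by nlinarith
            have h13 : (p.c : ℝ) * p.B * 1000 ≤ ((p.c : ℝ) * p.B) ^ 2 := by nlinarith
            have h14 : ((p.c : ℝ) * p.B) ^ 2 ≤ ((p.c : ℝ) * p.B) ^ 100 :=
              pow_le_pow_right₀ (by linarith) (by norm_num)
            have h15 : (0 : ℝ) ≤ ((p.c : ℝ) * p.B) ^ 100 := by positivity
            nlinarith
          have h16 : (10 : ℝ) ^ 6 * p.Lam ≤ p.c := by exact_mod_cast p.hLog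
          have h17 : (p.c : ℝ) * S.card ≤
              (1 / 8) ^ 2 * ((p.d : ℝ) / p.N * Y.card) / (2 * p.B) := by
            rw [le_div_iff₀ (by positivity)]
            have h18 : (p.c : ℝ) * p.B * 1000 * S.card ≤ p.rho * S.card :=
              mul_le_mul_of_nonneg_right h11 (by positivity)
            have h20 : (0 : ℝ) ≤ (p.c : ℝ) * p.B * S.card := by positivity
            have h21 : (p.c : ℝ) * S.card * (2 * p.B) = 2 * ((p.c : ℝ) * p.B * S.card) := by ring
            have h22 : (p.c : ℝ) * p.B * 1000 * S.card = 1000 * ((p.c : ℝ) * p.B * S.card) := by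
              ring
            have h23 : (6 / 7 : ℝ) * p.rho * S.card = 6 / 7 * (p.rho * S.card) := by ring
            rw [h21]
            rw [h22] at h18
            rw [h23] at hmean
            linarith
          refine le_trans ?_ h17
          have h19 : (((p.Lam + 1) * S.card + ((p.Lam + 1) + 8 * p.Lam) : ℕ) : ℝ) ≤
              ((12 * p.Lam * S.card : ℕ) : ℝ) := by
            have : (p.Lam + 1) * S.card + ((p.Lam + 1) + 8 * p.Lam) ≤ 12 * p.Lam * S.card := by
              nlinarith
            exact_mod_cast this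
          refine le_trans h19 ?_
          push_cast
          have hL0 : (0 : ℝ) ≤ p.Lam := Nat.cast_nonneg _
          have : (12 : ℝ) * p.Lam ≤ p.c := by linarith
          exact mul_le_mul_of_nonneg_right this (by positivity))
        refine le_trans (Nat.mul_le_mul_right _ (Finset.card_le_card ?_)) h10
        intro φ hφ
        rw [Finset.mem_filter] at hφ ⊢
        exact ⟨hφ.1, hφ.2.2.2⟩
      · have : (Ω.filter (fun φ => S ⊆ XA A H ∧ 1000 * S.card ≤ p.q * p.B ∧
            ((NbS H v i S ∩ XA A H ∩ labS A φ M).card : ℝ) <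
              (3 / 4 : ℝ) * p.rho * S.card)) = ∅ := by
          rw [Finset.filter_eq_empty_iff]
          intro φ _ hφ
          exact hS ⟨hφ.1, hφ.2.1⟩
        rw [this]
        simp
  have hfin := ub Ω ((Finset.univ : Finset Bool) ×ˢ MM) (fun e φ =>
      ∃ S : Finset (P × A), S.Nonempty ∧ (S ⊆ XA A H ∧ 1000 * S.card ≤ p.q * p.B ∧
        ((NbS H v e.1 S ∩ XA A H ∩ labS A φ e.2).card : ℝ) <
          (3 / 4 : ℝ) * p.rho * S.card)) (p.Lam + 1) (8 * p.Lam) (by
      rw [Finset.card_product]
      have h1 := hT.card_MM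
      have h2 := p.s4
      simp only [Finset.card_univ, Fintype.card_bool]
      rw [pow_succ]
      omega) key
  refine le_trans (Nat.mul_le_mul_right _ (Finset.card_le_card ?_)) hfin
  intro φ hφ
  rw [Finset.mem_filter] at hφ ⊢
  refine ⟨hφ.1, ?_⟩
  have h1 := hφ.2
  unfold P2 at h1
  push Not at h1
  obtain ⟨i, S, M, hS, hS2, hM, hlt⟩ := h1
  have hSne : S.Nonempty := by
    by_contra hne
    rw [Finset.not_nonempty_iff_eq_empty] at hne
    subst hne
    have h0 : (0 : ℝ) ≤ ((NbS H v i (∅ : Finset (P × A)) ∩ XA A H ∩ labS A φ M).card : ℝ) :=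
      Nat.cast_nonneg _
    rw [Finset.card_empty, Nat.cast_zero, mul_zero] at hlt
    linarith
  exact ⟨(i, M), Finset.mem_product.mpr ⟨Finset.mem_univ _, hM⟩, S, hSne, hS, hS2, hlt⟩

end Pool.Agent.helper24.TG
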